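import Mathlib

set_option autoImplicit false

namespace Pool.Agent.H.MP_3d411c_an

open Filter Topology Finset

lemma exact_case (N : ℕ) (F : ℕ → ℕ → ℂ) (h0 : ∀ i, F i 0 = 0)
    (h1 : ∀ i, N + 1 ≤ i → i ≤ 4 * (N + 1) → ∃ k ≤ N, F i k ≠ 0)
    (h2 : ∀ i i' k, N + 1 ≤ i → N + 1 ≤ i' → i + i' ≤ 4 * (N + 1) → k ≤ N →
      F (i + i') k = ∑ p ∈ antidiagonal k, F i p.1 * F i' p.2) : False := by
  classical
  have h3 : ∀ i, ∃ o : ℕ, N + 1 ≤ i → i ≤ 4 * (N + 1) →
      1 ≤ o ∧ o ≤ N ∧ F i o ≠ 0 ∧ ∀ k < o, F i k = 0 := by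
    intro i
    by_cases h : N + 1 ≤ i ∧ i ≤ 4 * (N + 1)
    · obtain ⟨k, hk, hk'⟩ := h1 i h.1 h.2
      have ex : ∃ k, F i k ≠ 0 := ⟨k, hk'⟩
      refine ⟨Nat.find ex, fun _ _ => ⟨?_, (Nat.find_min' ex hk').trans hk, Nat.find_spec ex,
        fun k hk => by simpa using Nat.find_min ex hk⟩⟩
      rw [Nat.one_le_iff_ne_zero]
      intro e
      have := Nat.find_spec ex
      rw [e] at this
      exact this (h0 i)
    · exact ⟨0, fun a b => absurd ⟨a, b⟩ h⟩
  choose o ho using h3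
  have h4 : ∀ i i', N + 1 ≤ i → N + 1 ≤ i' → i + i' ≤ 4 * (N + 1) → o (i + i') = o i + o i' := by
    intro i i' hi hi' hs
    obtain ⟨-, -, a3, a4⟩ := ho i hi (by omega)
    obtain ⟨-, -, b3, b4⟩ := ho i' hi' (by omega)
    obtain ⟨-, c2, c3, c4⟩ := ho (i + i') (by omega) hs
    have h5 : o i + o i' ≤ o (i + i') := by
      by_contra h
      apply c3
      rw [h2 i i' _ hi hi' hs c2]
      refine sum_eq_zero fun p hp => ?_
      have := mem_antidiagonal.1 hp
      by_cases h6 : p.1 < o i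
      · rw [a4 _ h6, zero_mul]
      · rw [b4 _ (by omega), mul_zero]
    refine le_antisymm ?_ h5
    by_contra h
    have h6 := c4 (o i + o i') (by omega)
    rw [h2 i i' _ hi hi' hs (by omega), sum_eq_single (o i, o i')] at h6
    · exact mul_ne_zero a3 b3 h6
    · intro p hp hne
      have := mem_antidiagonal.1 hp
      by_cases h6 : p.1 < o i
      · rw [a4 _ h6, zero_mul]
      · rw [b4 p.2, mul_zero]
        by_contra h7
        exact hne (Prod.ext (by simp only; omega) (by simp only; omega))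
    · simp
  have h5 : ∀ l ≤ N + 1, (o (N + 1 + l) : ℤ) = o (N + 1) + l * ((o (N + 2) : ℤ) - o (N + 1)) := by
    intro l hl
    induction l with
    | zero => simp
    | succ l ih =>
      have e1 := h4 (N + 1 + (l + 1)) (N + 1) (by omega) (by omega) (by omega)
      have e2 := h4 (N + 1 + l) (N + 2) (by omega) (by omega) (by omega)
      rw [show N + 1 + (l + 1) + (N + 1) = N + 1 + l + (N + 2) by ring, e2] at e1
      have e3 := ih (by omega)
      push_cast
      have : (o (N + 1 + l) : ℤ) + o (N + 2) = o (N + 1 + (l + 1)) + o (N + 1) := by exact_mod_cast e1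
      linarith
  have h6 := h5 (N + 1) le_rfl
  rw [h4 (N + 1) (N + 1) le_rfl le_rfl (by omega)] at h6
  obtain ⟨a1, a2, -⟩ := ho (N + 1) le_rfl (by omega)
  push_cast at h6
  obtain ⟨d, hd⟩ : ∃ d, d = (o (N + 2) : ℤ) - o (N + 1) := ⟨_, rfl⟩
  rw [← hd] at h6
  have a1' : (1 : ℤ) ≤ o (N + 1) := by exact_mod_cast a1
  have a2' : (o (N + 1) : ℤ) ≤ N := by exact_mod_cast a2
  have hN : (0 : ℤ) ≤ N := by positivity
  by_cases h : d ≤ 0
  · nlinarith
  · have : 1 ≤ d := by omega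
    nlinarith

def Approx (N : ℕ) (M δ : ℝ) (F : ℕ → ℕ → ℂ) : Prop :=
  (∀ i k, ‖F i k‖ ≤ M) ∧ (∀ i, F i 0 = 0) ∧
  (∀ i, N + 1 ≤ i → i ≤ 4 * (N + 1) → ∃ k ≤ N, M⁻¹ ≤ ‖F i k‖) ∧
  ∀ i i' k, N + 1 ≤ i → N + 1 ≤ i' → i + i' ≤ 4 * (N + 1) → k ≤ N →
      ‖F (i + i') k - ∑ p ∈ antidiagonal k, F i p.1 * F i' p.2‖ ≤ δ

lemma approx_closed (N : ℕ) (M δ : ℝ) : IsClosed {F | Approx N M δ F} := by
  unfold Approx
  simp only [Set.ofPred_and, Set.ofPred_forall]
  refine (isClosed_iInter fun i => isClosed_iInter fun k => isClosed_le (by fun_prop) (by fun_prop)).inter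
    ((isClosed_iInter fun i => isClosed_eq (by fun_prop) (by fun_prop)).inter
    ((isClosed_iInter fun i => isClosed_iInter fun _ => isClosed_iInter fun _ => ?_).inter
    (isClosed_iInter fun i => isClosed_iInter fun i' => isClosed_iInter fun k =>
      isClosed_iInter fun _ => isClosed_iInter fun _ => isClosed_iInter fun _ =>
      isClosed_iInter fun _ => isClosed_le (by fun_prop) (by fun_prop))))
  have : {F : ℕ → ℕ → ℂ | ∃ k ≤ N, M⁻¹ ≤ ‖F i k‖} = ⋃ k ∈ Set.Iic N, {F | M⁻¹ ≤ ‖F i k‖} := by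
    ext F; simp
  rw [this]
  exact (Set.finite_Iic N).isClosed_biUnion fun k _ => isClosed_le (by fun_prop) (by fun_prop)

theorem exists_delta (N : ℕ) (M : ℝ) (hM : 0 < M) : ∃ δ > 0, ∀ F, ¬ Approx N M δ F := by
  by_contra h
  push Not at h
  have hc : IsCompact {F : ℕ → ℕ → ℂ | Approx N M (1 / (((0 : ℕ) : ℝ) + 1)) F} := by
    refine (isCompact_univ_pi fun _ : ℕ => isCompact_univ_pi fun _ : ℕ =>
      isCompact_closedBall (0 : ℂ) M).of_isClosed_subset (approx_closed _ _ _) fun F hF => ?_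
    intro i _ k _
    simpa using hF.1 i k
  obtain ⟨F, hF⟩ := IsCompact.nonempty_iInter_of_sequence_nonempty_isCompact_isClosed
    (fun n : ℕ => {F : ℕ → ℕ → ℂ | Approx N M (1 / ((n : ℝ) + 1)) F})
    (fun n F hF => ⟨hF.1, hF.2.1, hF.2.2.1, fun i i' k a b c d => (hF.2.2.2 i i' k a b c d).trans
      (one_div_le_one_div_of_le (by positivity) (by push_cast; linarith))⟩)
    (fun n => h _ (by positivity)) hc fun n => approx_closed _ _ _
  rw [Set.mem_iInter] at hF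
  refine exact_case N F (hF 0).2.1 (fun i a b => ?_) fun i i' k a b c d => ?_
  · obtain ⟨k, hk, hk'⟩ := (hF 0).2.2.1 i a b
    exact ⟨k, hk, norm_pos_iff.1 ((inv_pos.2 hM).trans_le hk')⟩
  · rw [← sub_eq_zero, ← norm_le_zero_iff]
    exact ge_of_tendsto' tendsto_one_div_add_atTop_nhds_zero_nat fun n => (hF n).2.2.2 i i' k a b c d

end Pool.Agent.H.MP_3d411c_an
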