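import Mathlib
import Pool.Agent.H.MP_3d411c_an.A

set_option autoImplicit false

namespace Pool.Agent.H.MP_3d411c_an

open Filter Topology Finset

def NN (n : ℕ) : ℕ := 2 ^ n * (n + 1).factorial

lemma NN_pos (n : ℕ) : 0 < NN n := by unfold NN; positivity
lemma NN_succ (n : ℕ) : NN (n + 1) = 2 * (n + 2) * NN n := by
  unfold NN; rw [Nat.factorial_succ (n + 1)]; ring

def InL (n : ℕ) (s : ℚ≥0) : Prop := ∃ k : ℤ, (s : ℚ) * NN n = k

lemma InL.succ {n : ℕ} {s : ℚ≥0} (h : InL n s) : InL (n + 1) s := by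
  obtain ⟨k, hk⟩ := h
  exact ⟨2 * (n + 2) * k, by rw [NN_succ]; push_cast; rw [← hk]; ring⟩

lemma InL.mono {n m : ℕ} {s : ℚ≥0} (h : InL n s) (hm : n ≤ m) : InL m s := by
  induction hm with
  | refl => exact h
  | step _ ih => exact ih.succ

lemma exists_InL (s : ℚ≥0) : ∃ n, InL n s := by
  obtain ⟨c, hc⟩ : (s : ℚ).den ∣ ((s : ℚ).den + 1).factorial :=
    Nat.dvd_factorial (s : ℚ).den_pos (Nat.le_succ _)
  refine ⟨(s : ℚ).den, (s : ℚ).num * 2 ^ (s : ℚ).den * c, ?_⟩
  unfold NN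
  rw [hc]
  push_cast
  have := Rat.mul_den_eq_num (s : ℚ)
  linear_combination (2 ^ (s : ℚ).den * c : ℚ) * this

lemma InL.add {n : ℕ} {s u : ℚ≥0} (h : InL n s) (h' : InL n u) : InL n (s + u) := by
  obtain ⟨k, hk⟩ := h
  obtain ⟨l, hl⟩ := h'
  exact ⟨k + l, by push_cast; rw [add_mul, hk, hl]⟩

noncomputable def pt (n k : ℕ) : ℚ≥0 := k / NN n

lemma InL_pt (n k : ℕ) : InL n (pt n k) :=
  ⟨k, by have := NN_pos n; simp [pt]; field_simp⟩

lemma InL.exists_pt {n : ℕ} {s : ℚ≥0} (h : InL n s) : ∃ k, s = pt n k := by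
  obtain ⟨k, hk⟩ := h
  have h0 : 0 ≤ k := by
    have : (0 : ℚ) ≤ k := by rw [← hk]; positivity
    exact_mod_cast this
  lift k to ℕ using h0
  refine ⟨k, NNRat.coe_injective ?_⟩
  have := NN_pos n
  simp only [pt, NNRat.coe_div, NNRat.coe_natCast]
  rw [eq_div_iff (by positivity), hk, Int.cast_natCast]

lemma pt_add (n k l : ℕ) : pt n (k + l) = pt n k + pt n l := by simp [pt, add_div]

lemma pt_inj (n : ℕ) : Function.Injective (pt n) := by
  intro k l h
  have := NN_pos n
  simp only [pt] at h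
  rw [div_left_inj' (by positivity)] at h
  exact_mod_cast h

lemma pt_le {n k : ℕ} (h : k ≤ NN n) : pt n k ≤ 1 := by
  have := NN_pos n
  rw [pt, div_le_one (by positivity)]
  exact_mod_cast h

open Classical in
noncomputable def lev (s : ℚ≥0) : ℕ := Nat.find (exists_InL s)

lemma lev_spec (s : ℚ≥0) : InL (lev s) s := by classical exact Nat.find_spec (exists_InL s)
lemma lev_le {s : ℚ≥0} {n : ℕ} (h : InL n s) : lev s ≤ n := by classical exact Nat.find_min' _ h

noncomputable def dl (n : ℕ) : ℝ := (exists_delta (NN n) (n + 1) (by positivity)).choose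
lemma dl_pos (n : ℕ) : 0 < dl n := (exists_delta (NN n) (n + 1) (by positivity)).choose_spec.1
lemma dl_spec (n : ℕ) (F : ℕ → ℕ → ℂ) : ¬ Approx (NN n) (n + 1) (dl n) F :=
  (exists_delta (NN n) (n + 1) (by positivity)).choose_spec.2 F

noncomputable def W : ℕ → ℝ
  | 0 => 1
  | n + 1 => W n + (2 * (n + 1) ^ 3 + (n + 1) ^ 2 / dl n)

lemma W_mono : Monotone W := monotone_nat_of_le_succ fun n => by
  have := dl_pos n
  rw [W, le_add_iff_nonneg_right]; positivity

lemma W_one (n : ℕ) : 1 ≤ W n := W_mono (Nat.zero_le n)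

noncomputable def om (s : ℚ≥0) : ℝ := if s ≤ 1 then W (lev s) else 0

lemma om_nonneg (s : ℚ≥0) : 0 ≤ om s := by
  unfold om; split_ifs
  · linarith [W_one (lev s)]
  · rfl

lemma om_one {s : ℚ≥0} (h : s ≤ 1) : 1 ≤ om s := by rw [om, if_pos h]; exact W_one _

lemma om_zero : om 0 = 1 := by
  rw [om, if_pos zero_le_one, Nat.le_zero.1 (lev_le ⟨0, by simp⟩), W]

lemma om_le {s : ℚ≥0} {n : ℕ} (h : InL n s) : om s ≤ W n := by
  unfold om; split_ifs
  · exact W_mono (lev_le h)
  · linarith [W_one n]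

lemma om_ge {s : ℚ≥0} {n : ℕ} (h : ¬ InL n s) (h1 : s ≤ 1) : W (n + 1) ≤ om s := by
  rw [om, if_pos h1]
  refine W_mono ?_
  by_contra h2
  exact h ((lev_spec s).mono (by omega))

lemma om_add (s u : ℚ≥0) : om (s + u) ≤ om s * om u := by
  by_cases h : s + u ≤ 1
  · have h1 : s ≤ 1 := le_self_add.trans h
    have h2 : u ≤ 1 := le_add_self.trans h
    have h3 := om_le (((lev_spec s).mono (le_max_left _ (lev u))).add
      ((lev_spec u).mono (le_max_right _ _)))
    have h4 := W_one (lev s)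
    have h5 := W_one (lev u)
    rw [show om s = W (lev s) from if_pos h1, show om u = W (lev u) from if_pos h2]
    rcases le_total (lev s) (lev u) with h6 | h6
    · rw [max_eq_right h6] at h3; nlinarith
    · rw [max_eq_left h6] at h3; nlinarith
  · rw [om, if_neg h]
    exact mul_nonneg (om_nonneg _) (om_nonneg _)

def A0 : Type := AddMonoidAlgebra ℂ ℚ≥0

noncomputable instance : CommRing A0 := inferInstanceAs (CommRing (AddMonoidAlgebra ℂ ℚ≥0))
noncomputable instance : Algebra ℂ A0 := inferInstanceAs (Algebra ℂ (AddMonoidAlgebra ℂ ℚ≥0))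

noncomputable def cf (s : ℚ≥0) : A0 →ₗ[ℂ] ℂ where
  toFun f := AddMonoidAlgebra.coeff f s
  map_add' _ _ := rfl
  map_smul' _ _ := rfl

noncomputable def supp (f : A0) : Finset ℚ≥0 := (AddMonoidAlgebra.coeff f).support

lemma mem_supp {f : A0} {s : ℚ≥0} : s ∈ supp f ↔ cf s f ≠ 0 := Finsupp.mem_support_iff

noncomputable def dd (s : ℚ≥0) : A0 := AddMonoidAlgebra.single s 1

lemma dd_add (s u : ℚ≥0) : dd (s + u) = dd s * dd u := by
  have := AddMonoidAlgebra.single_mul_single (R := ℂ) s u 1 1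
  rw [mul_one] at this
  exact this.symm

lemma dd_zero : dd 0 = 1 := rfl

lemma cf_dd (s u : ℚ≥0) : cf s (dd u) = if u = s then 1 else 0 := by
  change (Finsupp.single u (1 : ℂ)) s = _
  rw [Finsupp.single_apply]

lemma A0_ext {f g : A0} (h : ∀ s, cf s f = cf s g) : f = g :=
  AddMonoidAlgebra.coeff_injective (Finsupp.ext h)

lemma eq_sum (f : A0) : f = ∑ s ∈ supp f, cf s f • dd s := by
  refine A0_ext fun u => ?_
  simp only [map_sum, map_smul, cf_dd, smul_eq_mul, mul_ite, mul_one, mul_zero, sum_ite_eq']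
  split_ifs with h
  · rfl
  · simpa [mem_supp] using h

noncomputable def nrm (f : A0) : ℝ := ∑ s ∈ supp f, ‖cf s f‖ * om s

lemma nrm_eq (f : A0) (T : Finset ℚ≥0) (h : supp f ⊆ T) : nrm f = ∑ s ∈ T, ‖cf s f‖ * om s :=
  sum_subset h fun s _ hs => by
    rw [mem_supp, not_not] at hs
    simp [hs]

lemma sum_le_nrm (f : A0) (T : Finset ℚ≥0) : ∑ s ∈ T, ‖cf s f‖ * om s ≤ nrm f := by
  classical
  rw [nrm_eq f (T ∪ supp f) subset_union_right]
  exact sum_le_sum_of_subset_of_nonneg subset_union_left fun s _ _ =>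
    mul_nonneg (norm_nonneg _) (om_nonneg _)

noncomputable def sn : Seminorm ℂ A0 := Seminorm.ofSMulLE nrm (by simp [nrm])
  (fun f g => by
    rw [nrm]
    refine le_trans (sum_le_sum fun s _ => ?_)
      (sum_add_distrib.trans_le (add_le_add (sum_le_nrm f _) (sum_le_nrm g _)))
    rw [map_add, ← add_mul]
    exact mul_le_mul_of_nonneg_right (norm_add_le _ _) (om_nonneg _))
  (fun c f => by
    rw [nrm]
    refine le_trans (le_of_eq ?_) (mul_le_mul_of_nonneg_left (sum_le_nrm f (supp (c • f)))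
      (norm_nonneg c))
    simp [mul_sum, mul_assoc])

lemma sn_dd (s : ℚ≥0) : sn (dd s) = om s := by
  change nrm (dd s) = _
  rw [nrm_eq _ {s} fun u hu => ?_]
  · simp [cf_dd]
  · rw [mem_supp, cf_dd] at hu
    by_contra h
    exact hu (if_neg fun e => h (by simp [e]))

lemma sem_le (p : Seminorm ℂ A0) (C : ℝ) (h : ∀ s, p (dd s) ≤ C * om s) (f : A0) :
    p f ≤ C * sn f := by
  conv_lhs => rw [eq_sum f]
  refine (le_sum_of_subadditive p (map_zero p).le (map_add_le_add p) _ _).trans ?_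
  change _ ≤ C * nrm f
  rw [nrm, mul_sum]
  refine sum_le_sum fun s _ => ?_
  rw [map_smul_eq_mul, mul_left_comm]
  exact mul_le_mul_of_nonneg_left (h s) (norm_nonneg _)

lemma bil_le {E : Type} [AddCommGroup E] [Module ℂ E] (p : Seminorm ℂ E)
    (Φ : A0 →ₗ[ℂ] A0 →ₗ[ℂ] E) (C : ℝ) (h : ∀ s u, p (Φ (dd s) (dd u)) ≤ C * om s * om u)
    (f g : A0) : p (Φ f g) ≤ C * sn f * sn g := by
  have h1 : ∀ s, p (Φ (dd s) g) ≤ C * sn g * om s := fun s => by
    have := sem_le (p.comp (Φ (dd s))) (C * om s) (h s) g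
    rw [Seminorm.comp_apply] at this
    linarith
  have := sem_le (p.comp (Φ.flip g)) (C * sn g) h1 f
  rw [Seminorm.comp_apply, LinearMap.flip_apply] at this
  linarith

noncomputable instance : SeminormedCommRing A0 :=
  { sn.toAddGroupSeminorm.toSeminormedAddCommGroup, (inferInstance : CommRing A0) with
    norm_mul_le := fun f g => by
      have := bil_le sn (LinearMap.mul ℂ A0) 1 (fun s u => by
        rw [LinearMap.mul_apply', ← dd_add, sn_dd, one_mul]; exact om_add s u) f g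
      rw [one_mul] at this
      exact this }

lemma norm_def (f : A0) : ‖f‖ = sn f := rfl

noncomputable instance : NormedAlgebra ℂ A0 where
  norm_smul_le c f := (map_smul_eq_mul sn c f).le

end Pool.Agent.H.MP_3d411c_an
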