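import Mathlib
import Pool.Agent.H.MP_3d411c_an.B

set_option autoImplicit false

namespace Pool.Agent.H.MP_3d411c_an

open Filter Topology Finset UniformSpace

structure Pkg {B : Type} [NormedCommRing B] [NormedAlgebra ℂ B] (δ : ℚ≥0 → B)
    (c : ℚ≥0 → B →L[ℂ] ℂ) : Prop where
  add : ∀ s u, δ (s + u) = δ s * δ u
  zero : δ 0 = 1
  norm : ∀ s, ‖δ s‖ = om s
  cd : ∀ s ≤ 1, ∀ u, c s (δ u) = if u = s then 1 else 0
  sum_le : ∀ (T : Finset ℚ≥0) (a : B), (∀ s ∈ T, s ≤ 1) → ∑ s ∈ T, ‖c s a‖ ≤ ‖a‖
  ext : ∀ a, (∀ s ≤ 1, c s a = 0) → a = 0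
  approx : ∀ n k a b, k ≤ NN n → ‖c (pt n k) (a * b) -
    ∑ p ∈ antidiagonal k, c (pt n p.1) a * c (pt n p.2) b‖ ≤ (W (n + 1))⁻¹ * ‖a‖ * ‖b‖
  mul0 : ∀ a b, c 0 (a * b) = c 0 a * c 0 b
  nil : ∀ a, c 0 a = 0 → a ∈ closure {y : B | IsNilpotent y}

lemma cf_le {s : ℚ≥0} (h : s ≤ 1) (f : A0) : ‖cf s f‖ ≤ ‖f‖ := by
  have h1 := sum_le_nrm f {s}
  rw [sum_singleton] at h1
  exact (le_mul_of_one_le_right (norm_nonneg _) (om_one h)).trans h1

noncomputable def cL (s : ℚ≥0) : A0 →L[ℂ] ℂ :=
  (if s ≤ 1 then cf s else 0).mkContinuous 1 fun f => by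
    split_ifs with h
    · rw [one_mul]; exact cf_le h f
    · simp

lemma cL_apply {s : ℚ≥0} (h : s ≤ 1) (f : A0) : cL s f = cf s f := by
  simp [cL, h]

lemma approx0 (n k : ℕ) (hk : k ≤ NN n) (f g : A0) : ‖cf (pt n k) (f * g) -
    ∑ p ∈ antidiagonal k, cf (pt n p.1) f * cf (pt n p.2) g‖ ≤ (W (n + 1))⁻¹ * ‖f‖ * ‖g‖ := by
  classical
  let Φ : A0 →ₗ[ℂ] A0 →ₗ[ℂ] ℂ := (LinearMap.mul ℂ A0).compr₂ (cf (pt n k)) -
    ∑ p ∈ antidiagonal k, (LinearMap.mul ℂ ℂ).compl₁₂ (cf (pt n p.1)) (cf (pt n p.2))
  have hΦ : ∀ f g, Φ f g = cf (pt n k) (f * g) -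
      ∑ p ∈ antidiagonal k, cf (pt n p.1) f * cf (pt n p.2) g := by
    intro f g
    simp [Φ, LinearMap.sum_apply]
  have hW := W_one (n + 1)
  rw [← hΦ]
  refine bil_le (normSeminorm ℂ ℂ) Φ _ (fun s u => ?_) f g
  rw [coe_normSeminorm, hΦ, ← dd_add]
  simp only [cf_dd]
  have h0 : 0 ≤ (W (n + 1))⁻¹ * om s * om u := by
    have := om_nonneg s
    have := om_nonneg u
    positivity
  by_cases h1 : s + u = pt n k
  · by_cases h2 : InL n s
    · have h3 : InL n u := by
        obtain ⟨a, ha⟩ := h2
        obtain ⟨b, hb⟩ := InL_pt n k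
        rw [← h1] at hb
        exact ⟨b - a, by push_cast at hb ⊢; rw [← ha, ← hb]; ring⟩
      obtain ⟨a, rfl⟩ := h2.exists_pt
      obtain ⟨b, rfl⟩ := h3.exists_pt
      have h4 : a + b = k := pt_inj n (by rw [pt_add, h1])
      rw [if_pos h1, sum_eq_single (a, b)]
      · simpa using h0
      · intro p _ hp
        by_cases h5 : a = p.1
        · rw [if_neg (c := pt n b = pt n p.2), mul_zero]
          exact fun h6 => hp (Prod.ext h5.symm (pt_inj n h6).symm)
        · rw [if_neg fun h6 => h5 (pt_inj n h6), zero_mul]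
      · simp [h4]
    · rw [if_pos h1, sum_eq_zero, sub_zero, norm_one]
      · have h3 : s + u ≤ 1 := h1 ▸ pt_le hk
        have h4 := om_ge h2 (le_self_add.trans h3)
        have h5 := om_one (le_add_self.trans h3 : u ≤ 1)
        have h6 : 1 ≤ (W (n + 1))⁻¹ * om s := by
          rw [le_inv_mul_iff₀ (by linarith), mul_one]; exact h4
        nlinarith
      · intro p _
        rw [if_neg, zero_mul]
        rintro rfl
        exact h2 (InL_pt _ _)
  · rw [if_neg h1, sum_eq_zero]
    · simpa using h0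
    · intro p hp
      by_cases h2 : s = pt n p.1
      · rw [if_neg (c := u = pt n p.2), mul_zero]
        rintro rfl
        exact h1 (by rw [h2, ← pt_add, mem_antidiagonal.1 hp])
      · rw [if_neg h2, zero_mul]

lemma mul00 (f g : A0) : cf 0 (f * g) = cf 0 f * cf 0 g := by
  have := AddMonoidAlgebra.coeff_mul_antidiag (R := ℂ) (M := ℚ≥0) f g 0 {(0, 0)} (by
    rintro ⟨a, b⟩
    simp)
  rw [sum_singleton] at this
  exact this

theorem exists_pkg : ∃ (B : Type) (_ : NormedCommRing B) (_ : NormedAlgebra ℂ B)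
    (_ : CompleteSpace B) (δ : ℚ≥0 → B) (c : ℚ≥0 → B →L[ℂ] ℂ), Pkg δ c := by
  let c : ℚ≥0 → Completion A0 →L[ℂ] ℂ := fun s => (cL s).fromCompletion
  have hc : ∀ s ≤ 1, ∀ f : A0, c s f = cf s f := fun s hs f => by
    rw [ContinuousLinearMap.fromCompletion_apply_coe, cL_apply hs]
  clear_value c
  have hsum : ∀ (T : Finset ℚ≥0) (a : Completion A0), (∀ s ∈ T, s ≤ 1) →
      ∑ s ∈ T, ‖c s a‖ * om s ≤ ‖a‖ := by
    intro T a hT
    induction a using Completion.induction_on with
    | hp => exact isClosed_le (by fun_prop) (by fun_prop)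
    | ih f =>
      rw [Completion.norm_coe]
      refine le_trans (le_of_eq (sum_congr rfl fun s hs => ?_)) (sum_le_nrm f T)
      rw [hc s (hT s hs)]
  have hnil : ∀ s : ℚ≥0, s ≠ 0 → IsNilpotent ((dd s : A0) : Completion A0) := by
    intro s hs
    obtain ⟨n, hn⟩ := exists_nat_gt s⁻¹
    have h1 : ∀ m : ℕ, ((dd s : A0) : Completion A0) ^ m = (dd (m * s) : A0) := by
      intro m
      induction m with
      | zero => simp [dd_zero, Completion.coe_one]
      | succ m ih => rw [pow_succ, ih, ← Completion.coe_mul, ← dd_add]; push_cast; ring_nf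
    refine ⟨n, ?_⟩
    rw [h1, ← norm_eq_zero, Completion.norm_coe, norm_def, sn_dd, om, if_neg]
    rw [inv_lt_iff_one_lt_mul₀ (pos_iff_ne_zero.2 hs)] at hn
    exact not_le.2 hn
  refine ⟨Completion A0, inferInstance, inferInstance, inferInstance, fun s => (dd s : A0), c,
    fun s u => by rw [dd_add, Completion.coe_mul], by rw [dd_zero, Completion.coe_one],
    fun s => by rw [Completion.norm_coe, norm_def, sn_dd], fun s hs u => by rw [hc s hs, cf_dd],
    fun T a hT => ?_, fun a ha => ?_, fun n k a b hk => ?_, fun a b => ?_, fun a ha => ?_⟩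
  · refine le_trans (sum_le_sum fun s hs => ?_) (hsum T a hT)
    exact le_mul_of_one_le_right (norm_nonneg _) (om_one (hT s hs))
  · classical
    rw [← norm_le_zero_iff]
    refine le_of_forall_pos_le_add fun ε hε => ?_
    obtain ⟨f, hf⟩ := Completion.denseRange_coe.exists_dist_lt a (half_pos hε)
    rw [dist_eq_norm] at hf
    have h1 := hsum ((supp f).filter (· ≤ 1)) (a - f) fun s hs => (mem_filter.1 hs).2
    have h2 : ‖(f : Completion A0)‖ = ∑ s ∈ (supp f).filter (· ≤ 1), ‖c s (a - f)‖ * om s := by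
      rw [Completion.norm_coe, norm_def, sum_filter]
      refine sum_congr rfl fun s _ => ?_
      split_ifs with h
      · rw [map_sub, ha s h, zero_sub, norm_neg, hc s h]
      · rw [om, if_neg h, mul_zero]
    have h3 := norm_add_le (a - f) f
    rw [sub_add_cancel] at h3
    linarith
  · induction a, b using Completion.induction_on₂ with
    | hp => exact isClosed_le (by fun_prop) (by fun_prop)
    | ih f g =>
      rw [← Completion.coe_mul, hc _ (pt_le hk), Completion.norm_coe, Completion.norm_coe]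
      convert approx0 n k hk f g using 4 with p hp
      have := mem_antidiagonal.1 hp
      rw [hc _ (pt_le (by omega)), hc _ (pt_le (by omega))]
  · induction a, b using Completion.induction_on₂ with
    | hp => exact isClosed_eq (by fun_prop) (by fun_prop)
    | ih f g => rw [← Completion.coe_mul, hc _ zero_le_one, hc _ zero_le_one, hc _ zero_le_one, mul00]
  · have key : ∀ a : Completion A0, a - c 0 a • 1 ∈ closure {y : Completion A0 | IsNilpotent y} := by
      intro a
      induction a using Completion.induction_on with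
      | hp => exact isClosed_closure.preimage (by fun_prop)
      | ih f =>
        classical
        apply subset_closure
        have e : f - cf 0 f • (1 : A0) = ∑ s ∈ (supp f).erase 0, cf s f • dd s := by
          refine A0_ext fun u => ?_
          rw [← dd_zero]
          simp only [map_sub, map_sum, map_smul, cf_dd, smul_eq_mul, mul_ite, mul_one, mul_zero,
            sum_ite_eq', mem_erase, mem_supp]
          by_cases h : u = 0
          · simp [h]
          · by_cases h2 : cf u f = 0 <;> simp [h, h2, Ne.symm h]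
        have e2 : (f : Completion A0) - c 0 f • 1 =
            ∑ s ∈ (supp f).erase 0, cf s f • ((dd s : A0) : Completion A0) := by
          have := congrArg (Completion.toComplL (𝕜 := ℂ) (E := A0)) e
          simp only [map_sub, map_smul, map_sum, Completion.coe_toComplL, Completion.coe_one] at this
          rw [hc _ zero_le_one]
          exact this
        rw [Set.mem_ofPred_eq, e2]
        exact isNilpotent_sum fun s hs => (hnil s (mem_erase.1 hs).1).smul _
    simpa [ha] using key a

end Pool.Agent.H.MP_3d411c_an
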