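import Mathlib
import Pool.Agent.H.MP_3d411c_an.C

set_option autoImplicit false
set_option linter.unusedSectionVars false

namespace Pool.Agent.H.MP_3d411c_an

open Filter Topology Finset

variable {B : Type} [NormedCommRing B] [NormedAlgebra ℂ B] [CompleteSpace B] {δ : ℚ≥0 → B}
  {c : ℚ≥0 → B →L[ℂ] ℂ}

lemma Pkg.c_le (h : Pkg δ c) {s : ℚ≥0} (hs : s ≤ 1) (a : B) : ‖c s a‖ ≤ ‖a‖ := by
  simpa using h.sum_le {s} a (by simpa using hs)

theorem Pkg.no_cont (h : Pkg δ c) (b : ℝ → B) (hb0 : ∀ t, c 0 (b t) = 0)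
    (hb : ∀ s t, 0 < s → 0 < t → b (s + t) = b s * b t) (t0 : ℝ) (ht0 : 0 < t0) (hne : b t0 ≠ 0)
    (hc : ContinuousOn b (Set.Ioi 0)) : False := by
  obtain ⟨τ, rfl⟩ : ∃ τ, t0 = 5 * τ := ⟨t0 / 5, by ring⟩
  have hτ : 0 < τ := by linarith
  obtain ⟨M, hM⟩ := (isCompact_Icc (a := τ) (b := 4 * τ)).exists_bound_of_continuousOn
    (hc.mono fun t ht => hτ.trans_le ht.1)
  have hM0 : 0 ≤ M := (norm_nonneg _).trans (hM τ ⟨le_rfl, by linarith⟩)
  obtain ⟨s0, hs0, hs1⟩ : ∃ s ≤ 1, c s (b (5 * τ)) ≠ 0 := by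
    by_contra h1
    push Not at h1
    exact hne (h.ext _ h1)
  obtain ⟨c0, hc0⟩ : ∃ c0, c0 = ‖c s0 (b (5 * τ))‖ := ⟨_, rfl⟩
  have hc1 : 0 < c0 := hc0 ▸ norm_pos_iff.2 hs1
  obtain ⟨n0, hn0⟩ := exists_nat_gt (max M ((M + 1) / c0))
  obtain ⟨n, hn⟩ : ∃ n, n = max n0 (lev s0) := ⟨_, rfl⟩
  have hn1 : (n0 : ℝ) ≤ n := by exact_mod_cast hn ▸ le_max_left _ _
  have hm1 : M ≤ n + 1 := by linarith [le_max_left M ((M + 1) / c0)]
  have hm2 : M + 1 < (n + 1) * c0 := by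
    rw [← div_lt_iff₀ hc1]; linarith [le_max_right M ((M + 1) / c0)]
  obtain ⟨k0, rfl⟩ := ((lev_spec s0).mono (hn ▸ le_max_right _ _ : lev s0 ≤ n)).exists_pt
  have hk0 : k0 ≤ NN n := by
    have := NN_pos n
    rw [pt, div_le_one (by positivity)] at hs0
    exact_mod_cast hs0
  have hd := dl_pos n
  have hW0 := W_one n
  have hW : W (n + 1) = W n + (2 * (n + 1) ^ 3 + (n + 1) ^ 2 / dl n) := rfl
  have hWpos : 0 < W (n + 1) := by linarith [W_one (n + 1)]
  have herr : ∀ x y : B, ‖x‖ ≤ M → ‖y‖ ≤ M → (W (n + 1))⁻¹ * ‖x‖ * ‖y‖ ≤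
      (W (n + 1))⁻¹ * (n + 1) ^ 2 := by
    intro x y hx hy
    rw [mul_assoc, sq]
    gcongr
    · exact hx.trans hm1
    · exact hy.trans hm1
  have he1 : (W (n + 1))⁻¹ * (n + 1) ^ 2 ≤ dl n := by
    rw [inv_mul_le_iff₀ hWpos, ← div_le_iff₀ hd, hW]
    have : (0 : ℝ) ≤ 2 * (n + 1) ^ 3 := by positivity
    linarith
  have he2 : (W (n + 1))⁻¹ * (n + 1) ^ 2 ≤ ((n : ℝ) + 1)⁻¹ := by
    rw [inv_mul_le_iff₀ hWpos, ← div_eq_mul_inv, le_div_iff₀ (by positivity), hW]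
    have : (0 : ℝ) ≤ (n + 1) ^ 2 / dl n := by positivity
    have : (0 : ℝ) ≤ (n + 1) ^ 3 := by positivity
    nlinarith
  obtain ⟨T, hT⟩ : ∃ T : ℕ → ℝ, T = fun i : ℕ => i * (τ / (NN n + 1)) := ⟨_, rfl⟩
  have hT1 : ∀ i, NN n + 1 ≤ i → i ≤ 4 * (NN n + 1) → T i ∈ Set.Icc τ (4 * τ) := by
    intro i h1 h2
    have h1' : (NN n + 1 : ℝ) ≤ i := by exact_mod_cast h1
    have h2' : (i : ℝ) ≤ 4 * (NN n + 1) := by exact_mod_cast h2
    have h3 : (0 : ℝ) < NN n + 1 := by positivity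
    rw [hT]
    constructor
    · simp only
      rw [← mul_div_assoc, le_div_iff₀ h3]; nlinarith
    · simp only
      rw [← mul_div_assoc, div_le_iff₀ h3]; nlinarith
  have hT2 : ∀ i j, T (i + j) = T i + T j := by intro i j; rw [hT]; push_cast; ring
  apply dl_spec n fun i k => if NN n + 1 ≤ i ∧ i ≤ 4 * (NN n + 1) ∧ k ≤ NN n then
    c (pt n k) (b (T i)) else 0
  refine ⟨fun i k => ?_, fun i => ?_, fun i h1 h2 => ?_, fun i i' k h1 h2 h3 h4 => ?_⟩
  · beta_reduce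
    split_ifs with h1
    · exact (h.c_le (pt_le h1.2.2) _).trans ((hM _ (hT1 i h1.1 h1.2.1)).trans hm1)
    · simp only [norm_zero]; positivity
  · simp [pt, hb0]
  · by_contra h3
    push Not at h3
    have h4 := hT1 i h1 h2
    have h5 : 5 * τ - T i ∈ Set.Icc τ (4 * τ) := ⟨by linarith [h4.2], by linarith [h4.1]⟩
    have h6 := hb _ _ (hτ.trans_le h5.1) (hτ.trans_le h4.1)
    rw [sub_add_cancel] at h6
    have h7 := ((h.approx n k0 (b (5 * τ - T i)) (b (T i)) hk0).trans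
      (herr _ _ (hM _ h5) (hM _ h4))).trans he2
    rw [← h6] at h7
    have h8 : ‖∑ p ∈ antidiagonal k0, c (pt n p.1) (b (5 * τ - T i)) * c (pt n p.2) (b (T i))‖ ≤
        M * ((n : ℝ) + 1)⁻¹ := by
      refine (norm_sum_le _ _).trans ?_
      calc _ ≤ ∑ p ∈ antidiagonal k0, ‖c (pt n p.1) (b (5 * τ - T i))‖ * ((n : ℝ) + 1)⁻¹ := by
            refine sum_le_sum fun p hp => ?_
            have := mem_antidiagonal.1 hp
            have h9 := h3 p.2 (by omega)
            rw [if_pos ⟨h1, h2, by omega⟩] at h9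
            rw [norm_mul]
            exact mul_le_mul_of_nonneg_left h9.le (norm_nonneg _)
        _ ≤ _ := by
            rw [← sum_mul]
            refine mul_le_mul_of_nonneg_right (le_trans ?_ (hM _ h5)) (by positivity)
            rw [Nat.sum_antidiagonal_eq_sum_range_succ fun x _ => ‖c (pt n x) (b (5 * τ - T i))‖,
              ← sum_image (f := fun s => ‖c s (b (5 * τ - T i))‖) (pt_inj n).injOn]
            refine h.sum_le _ _ fun s hs => ?_
            obtain ⟨k, hk, rfl⟩ := mem_image.1 hs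
            exact pt_le (by have := mem_range.1 hk; omega)
    have h9 : c0 ≤ ((n : ℝ) + 1)⁻¹ + M * ((n : ℝ) + 1)⁻¹ := by
      rw [hc0]
      refine le_trans ?_ (add_le_add h7 h8)
      exact (le_of_eq (by rw [sub_add_cancel])).trans (norm_add_le _ _)
    rw [← one_add_mul, ← div_eq_mul_inv, le_div_iff₀ (by positivity)] at h9
    linarith
  · have a1 := hT1 i h1 (by omega)
    have a2 := hT1 i' h2 (by omega)
    beta_reduce
    rw [if_pos ⟨by omega, h3, h4⟩, hT2, hb _ _ (hτ.trans_le a1.1) (hτ.trans_le a2.1)]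
    refine le_trans (le_of_eq ?_) (((h.approx n k _ _ h4).trans
      (herr _ _ (hM _ a1) (hM _ a2))).trans he1)
    congr 2
    refine sum_congr rfl fun p hp => ?_
    have := mem_antidiagonal.1 hp
    rw [if_pos ⟨h1, by omega, by omega⟩, if_pos ⟨h2, by omega, by omega⟩]

lemma Pkg.c_one (h : Pkg δ c) : c 0 1 = 1 := by simpa [h.zero] using h.cd 0 zero_le_one 0

lemma Pkg.unit (h : Pkg δ c) (a : B) (ha : c 0 a = 0) : IsUnit (1 + a) := by
  obtain ⟨y, hy, hd⟩ := Metric.mem_closure_iff.1 (h.nil a ha) 1 one_pos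
  rw [dist_comm, dist_eq_norm] at hd
  have h1 : IsUnit (1 - (y - a)) := (Units.oneSub _ hd).isUnit
  have := IsNilpotent.isUnit_add_right_of_commute hy h1 (Commute.all _ _)
  convert this using 1
  ring

def Pkg.R (h : Pkg δ c) : NonUnitalSubalgebra ℂ B where
  carrier := {a | c 0 a = 0}
  add_mem' := fun {a b} ha hb => by simp_all
  zero_mem' := by simp
  mul_mem' := fun {a b} ha hb => by simp_all [h.mul0]
  smul_mem' := fun z a ha => by simp_all

lemma Pkg.R_closed (h : Pkg δ c) : IsClosed (h.R : Set B) :=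
  isClosed_eq (c 0).continuous continuous_const

lemma Pkg.quasi (h : Pkg δ c) (x : h.R) : IsQuasiregular x := by
  obtain ⟨u, hu⟩ := (h.unit x.1 x.2).exists_right_inv
  have h1 : c 0 u = 1 := by
    have := h.mul0 (1 + x.1) u
    have hx : c 0 x.1 = 0 := x.2
    rw [hu, map_add, hx, h.c_one] at this
    simpa using this.symm
  rw [isQuasiregular_iff]
  refine ⟨⟨u - 1, by change c 0 _ = 0; rw [map_sub, h1, h.c_one, sub_self]⟩, ?_, ?_⟩
  · apply Subtype.ext
    change u - 1 + x.1 + x.1 * (u - 1) = 0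
    linear_combination hu
  · apply Subtype.ext
    change x.1 + (u - 1) + (u - 1) * x.1 = 0
    linear_combination hu

lemma Pkg.quasispec (h : Pkg δ c) (x : h.R) : quasispectrum ℂ x ⊆ {0} := by
  intro r hr
  by_contra h0
  exact hr (IsUnit.mk0 r h0) (h.quasi _)

end Pool.Agent.H.MP_3d411c_an
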