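import Mathlib

set_option autoImplicit false
set_option linter.unusedSectionVars false

namespace Pool.Agent.H.MP_3d411c_an

open Filter Topology Finset NormedSpace

variable {B : Type} [NormedCommRing B] [NormedAlgebra ℂ B] [CompleteSpace B]

lemma ex_add (x y : B) : exp (x + y) = exp x * exp y :=
  exp_add_of_mem_ball (𝕂 := ℂ) ((expSeries_radius_eq_top ℂ B).symm ▸ edist_lt_top _ _)
    ((expSeries_radius_eq_top ℂ B).symm ▸ edist_lt_top _ _)

lemma ex_nsmul (x : B) (n : ℕ) : exp ((n : ℂ) • x) = exp x ^ n := by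
  induction n with
  | zero => simp
  | succ n ih => rw [Nat.cast_succ, add_smul, one_smul, ex_add, ih, pow_succ]

lemma ex_neg (x : B) : exp (-x) * exp x = 1 := by rw [← ex_add]; simp

lemma ex_norm [NormOneClass B] (x : B) : ‖exp x‖ ≤ Real.exp ‖x‖ := by
  refine (exp_series_hasSum_exp' (𝕂 := ℂ) x).norm_le_of_bounded
    (g := fun n => ‖x‖ ^ n / n.factorial) ?_ fun n => ?_
  · rw [Real.exp_eq_exp_ℝ]
    exact expSeries_div_hasSum_exp ‖x‖
  · rw [norm_smul, norm_inv, Complex.norm_natCast, div_eq_inv_mul]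
    exact mul_le_mul_of_nonneg_left (norm_pow_le x n) (by positivity)

lemma ex_taylor (y : B) : ∃ z, exp y = 1 + y + y ^ 2 * z := by
  have hs : Summable fun n : ℕ => (((n + 2).factorial : ℂ)⁻¹) • y ^ n := by
    refine Summable.of_norm_bounded (norm_expSeries_summable' (𝕂 := ℂ) y) fun n => ?_
    rw [norm_smul, norm_smul, norm_inv, norm_inv, Complex.norm_natCast, Complex.norm_natCast]
    gcongr
    omega
  refine ⟨∑' n : ℕ, (((n + 2).factorial : ℂ)⁻¹) • y ^ n, ?_⟩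
  have h := (hasSum_nat_add_iff' 2).2 (exp_series_hasSum_exp' (𝕂 := ℂ) y)
  have h2 := hs.hasSum.mul_left (y ^ 2)
  have e : (fun n : ℕ => y ^ 2 * (((n + 2).factorial : ℂ)⁻¹) • y ^ n) =
      fun n : ℕ => (((n + 2).factorial : ℂ)⁻¹) • y ^ (n + 2) := by
    funext n; rw [mul_smul_comm]; ring_nf
  rw [e] at h2
  rw [← h.unique h2]
  simp [sum_range_succ]

lemma ex_log (k : ℕ) : ∀ y : B, y ^ (k + 1) = 0 → ∃ g, exp g = 1 + y := by
  induction k with
  | zero => intro y hy; exact ⟨0, by simp_all⟩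
  | succ k ih =>
    intro y hy
    obtain ⟨z, hz⟩ := ex_taylor (-y)
    obtain ⟨g, hg⟩ := ih (y ^ 2 * (z - 1 + y * z)) (by
      rw [mul_pow, ← pow_mul, show 2 * (k + 1) = (k + 1 + 1) + k by ring, pow_add, hy]; simp)
    refine ⟨g + y, ?_⟩
    have h1 := ex_neg y
    rw [ex_add, hg]
    rw [hz] at h1
    linear_combination (1 + y) * h1

lemma ex_log' {x : B} (hx : IsNilpotent x) {ε : ℝ} (hε : 0 < ε) :
    ∃ g, exp g = x + (ε : ℂ) • 1 := by
  obtain ⟨k, hk⟩ := hx.smul (ε : ℂ)⁻¹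
  obtain ⟨g, hg⟩ := ex_log k ((ε : ℂ)⁻¹ • x) (by rw [pow_succ, hk, zero_mul])
  refine ⟨algebraMap ℂ B (Real.log ε) + g, ?_⟩
  have h0 : (ε : ℂ) ≠ 0 := by exact_mod_cast hε.ne'
  rw [ex_add, hg, ← algebraMap_exp_comm, ← Complex.exp_eq_exp_ℂ, ← Complex.ofReal_exp,
    Real.exp_log hε, ← Algebra.smul_def, smul_add, smul_smul, mul_inv_cancel₀ h0, one_smul, add_comm]

lemma step {x : B} (hx : IsNilpotent x) (Q : ℕ) {η : ℝ} (hη : 0 < η) :
    ∃ g : B, ∀ μ ≤ Q, ∀ ι ≤ Q, ‖x ^ μ * (exp g ^ ι - x ^ ι)‖ ≤ η := by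
  have h : ∀ᶠ ε : ℝ in 𝓝 0, ∀ μ ∈ range (Q + 1), ∀ ι ∈ range (Q + 1),
      ‖x ^ μ * ((x + (ε : ℂ) • 1) ^ ι - x ^ ι)‖ ≤ η := by
    simp only [eventually_all_finset]
    intro μ _ ι _
    have hc : Continuous fun ε : ℝ => ‖x ^ μ * ((x + (ε : ℂ) • 1) ^ ι - x ^ ι)‖ := by fun_prop
    exact hc.continuousAt.eventually_le_const (by simpa using hη)
  obtain ⟨ε, h1, h2⟩ := ((h.filter_mono nhdsWithin_le_nhds).and
    (self_mem_nhdsWithin (s := Set.Ioi (0 : ℝ)))).exists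
  obtain ⟨g, hg⟩ := ex_log' hx h2
  exact ⟨g, fun μ a ι b => hg ▸ h1 μ (mem_range.2 (by omega)) ι (mem_range.2 (by omega))⟩

lemma exists_m : ∃ m : ℕ → ℝ →+ ℝ, ∀ t, (∃ c, ∀ n, |m n t - (n + 1).factorial * t| ≤ c * n.factorial) ∧
    ∀ᶠ n in atTop, ∃ z : ℤ, m n t = z := by
  let e := Module.Basis.ofVectorSpace ℚ ℝ
  let m : ℕ → ℝ →ₗ[ℚ] ℝ := fun n => e.constr ℚ fun i => (n.factorial : ℝ) * ⌊(n + 1) * e i⌋
  have hm : ∀ n i, m n (e i) = (n.factorial : ℝ) * ⌊(n + 1) * e i⌋ := fun n i => e.constr_basis _ _ _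
  clear_value m
  have key : ∀ t ∈ Submodule.span ℚ (Set.range e),
      (∃ c, ∀ n, |m n t - (n + 1).factorial * t| ≤ c * n.factorial) ∧
      ∀ d : ℕ, 0 < d → ∀ᶠ n in atTop, ∃ z : ℤ, m n t = d * z := by
    intro t ht
    induction ht using Submodule.span_induction with
    | mem x hx =>
      obtain ⟨i, rfl⟩ := hx
      refine ⟨⟨1, fun n => ?_⟩, fun d hd => ?_⟩
      · rw [hm, Nat.factorial_succ]
        push_cast
        have h1 := Int.floor_le ((n + 1) * e i)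
        have h2 := Int.lt_floor_add_one ((n + 1) * e i)
        have h3 : (0 : ℝ) < n.factorial := by positivity
        rw [abs_le]
        constructor <;> nlinarith
      · filter_upwards [eventually_ge_atTop d] with n hn
        obtain ⟨k, hk⟩ := Nat.dvd_factorial hd hn
        exact ⟨k * ⌊(n + 1) * e i⌋, by rw [hm, hk]; push_cast; ring⟩
    | zero => exact ⟨⟨0, by simp⟩, fun d _ => Eventually.of_forall fun n => ⟨0, by simp⟩⟩
    | add x y _ _ hx hy =>
      obtain ⟨⟨c, hc⟩, hx⟩ := hx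
      obtain ⟨⟨c', hc'⟩, hy⟩ := hy
      refine ⟨⟨c + c', fun n => ?_⟩, fun d hd => ?_⟩
      · have h1 := abs_le.1 (hc n)
        have h2 := abs_le.1 (hc' n)
        rw [map_add, abs_le]
        constructor <;> linarith [h1.1, h1.2, h2.1, h2.2]
      · filter_upwards [hx d hd, hy d hd] with n ⟨z, hz⟩ ⟨w, hw⟩
        exact ⟨z + w, by rw [map_add, hz, hw]; push_cast; ring⟩
    | smul q x _ hx =>
      obtain ⟨⟨c, hc⟩, hx⟩ := hx
      refine ⟨⟨|(q : ℝ)| * c, fun n => ?_⟩, fun d hd => ?_⟩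
      · rw [map_smul, Rat.smul_def, Rat.smul_def, mul_left_comm, ← mul_sub, abs_mul, mul_assoc]
        exact mul_le_mul_of_nonneg_left (hc n) (abs_nonneg _)
      · filter_upwards [hx (d * q.den) (Nat.mul_pos hd q.den_pos)] with n ⟨z, hz⟩
        refine ⟨q.num * z, ?_⟩
        have : (q : ℝ) * q.den = q.num := by exact_mod_cast Rat.mul_den_eq_num q
        rw [map_smul, Rat.smul_def, hz]
        push_cast
        linear_combination (d * z : ℝ) * this
  refine ⟨fun n => (m n).toAddMonoidHom, fun t => ?_⟩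
  obtain ⟨h1, h2⟩ := key t (by rw [e.span_eq]; trivial)
  exact ⟨h1, by simpa using h2 1 one_pos⟩

end Pool.Agent.H.MP_3d411c_an
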