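import Mathlib
import Pool.Agent.H.MP_3d411c_an.D
import Pool.Agent.H.MP_3d411c_an.E

set_option autoImplicit false
set_option linter.unusedSectionVars false

namespace Pool.Agent.H.MP_3d411c_an

open Filter Topology Finset NormedSpace

variable {B : Type} [NormedCommRing B] [NormedAlgebra ℂ B] [CompleteSpace B] {δ : ℚ≥0 → B}
  {c : ℚ≥0 → B →L[ℂ] ℂ}

lemma Pkg.pow (h : Pkg δ c) (n p : ℕ) : δ (pt n 1) ^ p = δ (pt n p) := by
  induction p with
  | zero => simp [pt, h.zero]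
  | succ p ih => rw [pow_succ, ih, pt_add, h.add]

lemma Pkg.nilp (h : Pkg δ c) (n : ℕ) : IsNilpotent (δ (pt n 1)) := by
  refine ⟨NN n + 1, ?_⟩
  have := NN_pos n
  rw [h.pow, ← norm_eq_zero, h.norm, om, if_neg]
  rw [pt, div_le_one (by positivity)]
  exact_mod_cast Nat.not_succ_le_self _

lemma pt_succ (n p : ℕ) : pt n p = pt (n + 1) (2 * (n + 2) * p) := by
  have := NN_pos n
  simp only [pt, NN_succ]
  push_cast
  field_simp

lemma Pkg.c0 (h : Pkg δ c) (n : ℕ) {p : ℕ} (hp : 1 ≤ p) : c 0 (δ (pt n p)) = 0 := by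
  rw [h.cd 0 zero_le_one, if_neg]
  intro e
  have : pt n p = pt n 0 := by simpa [pt] using e
  have := pt_inj n this
  omega

def jj (m : ℕ → ℝ →+ ℝ) (n : ℕ) (t : ℝ) : ℝ := 2 * (n + 2) * m n t - m (n + 1) t

def Good (m : ℕ → ℝ →+ ℝ) (t : ℝ) (n0 : ℕ) : Prop :=
  (∀ k, |jj m k t| ≤ n0 * (3 * (k + 2).factorial)) ∧ (∀ k, |m k t| ≤ n0 * (k + 1).factorial) ∧
    ∀ n ≥ n0, (∃ μ : ℕ, 1 ≤ μ ∧ m n t = μ) ∧ 0 ≤ jj m n t

lemma exists_good : ∃ m : ℕ → ℝ →+ ℝ, ∀ t, 0 < t → ∃ n0, Good m t n0 := by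
  obtain ⟨m, hm⟩ := exists_m
  refine ⟨m, fun t ht => ?_⟩
  obtain ⟨⟨c, hc⟩, hz⟩ := hm t
  have hc0 : 0 ≤ c := by simpa using (abs_nonneg _).trans (hc 0)
  obtain ⟨n1, hn1⟩ := eventually_atTop.1 hz
  obtain ⟨n2, hn2⟩ := exists_nat_gt (max (t + c) (3 * c / t))
  have h1 : t + c ≤ (max n1 n2 : ℕ) := by
    have : (n2 : ℝ) ≤ (max n1 n2 : ℕ) := by exact_mod_cast le_max_right _ _
    linarith [le_max_left (t + c) (3 * c / t)]
  have h2 : ∀ k, |m k t| ≤ (max n1 n2 : ℕ) * (k + 1).factorial := by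
    intro k
    have h3 := abs_le.1 (hc k)
    have h4 : (k.factorial : ℝ) ≤ (k + 1).factorial := by
      exact_mod_cast Nat.factorial_le (Nat.le_succ k)
    have h5 : (0 : ℝ) < k.factorial := by positivity
    rw [abs_le]
    constructor <;> nlinarith [h3.1, h3.2]
  refine ⟨max n1 n2, fun k => ?_, h2, fun n hn => ?_⟩
  · have h3 := h2 k
    have h4 := h2 (k + 1)
    rw [jj]
    refine (abs_sub _ _).trans ?_
    rw [abs_mul, abs_of_nonneg (by positivity : (0 : ℝ) ≤ 2 * (k + 2))]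
    have h5 : ((k + 2).factorial : ℝ) = (k + 2) * (k + 1).factorial := by
      rw [Nat.factorial_succ (k + 1)]; push_cast; ring
    rw [show k + 1 + 1 = k + 2 from rfl] at h4
    have h6 : 2 * ((k : ℝ) + 2) * |m k t| ≤ 2 * (k + 2) * ((max n1 n2 : ℕ) * (k + 1).factorial) := by
      gcongr
    rw [h5] at h4 ⊢
    linarith
  · have h3 : 3 * c < n * t := by
      have : (n2 : ℝ) ≤ n := by exact_mod_cast (le_max_right _ _).trans hn
      rw [← div_lt_iff₀ ht]
      linarith [le_max_right (t + c) (3 * c / t)]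
    have h4 := (abs_le.1 (hc n)).1
    have h5 := (abs_le.1 (hc (n + 1))).2
    have h6 : (0 : ℝ) < n.factorial := by positivity
    have h7 : (0 : ℝ) ≤ n := by positivity
    simp only [Nat.factorial_succ] at h4 h5
    push_cast at h4 h5
    constructor
    · obtain ⟨z, hz⟩ := hn1 n ((le_max_left _ _).trans hn)
      have h8 : (0 : ℝ) < z := by
        rw [← hz]
        have : 0 < (n.factorial : ℝ) * ((n + 1) * t - c) := mul_pos h6 (by nlinarith)
        nlinarith
      have h9 : 0 < z := by exact_mod_cast h8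
      lift z to ℕ using h9.le
      exact ⟨z, by exact_mod_cast h9, by simpa using hz⟩
    · rw [jj]
      have h8 : 0 ≤ (n.factorial : ℝ) * ((n + 1) * (n + 2) * t - c * (3 * n + 5)) := by
        refine mul_nonneg h6.le ?_
        nlinarith [mul_nonneg h7 hc0, mul_nonneg h7 ht.le]
      have h9 : 2 * ((n : ℝ) + 2) * ((n + 1) * n.factorial * t - c * n.factorial) ≤
          2 * (n + 2) * m n t := by
        gcongr; linarith
      nlinarith

theorem Pkg.exists_real (h : Pkg δ c) : ∃ b : ℝ → B, (∀ t, c 0 (b t) = 0) ∧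
    (∀ s t, 0 < s → 0 < t → b (s + t) = b s * b t) ∧ (∀ t, 0 < t → b t ≠ 0) ∧
    b 1 ∈ closure {w | ∃ y, c 0 y = 0 ∧ w = b 1 * b 1 * y} := by
  have : NormOneClass B := ⟨by rw [← h.zero, h.norm, om_zero]⟩
  obtain ⟨m, hm⟩ := exists_good
  have hW : ∀ n, 0 < W n := fun n => by linarith [W_one n]
  choose G hG using fun (n : ℕ) (Γ : ℝ) => step (h.nilp (n + 1)) (n * (3 * (n + 2).factorial))
    (η := (1 / 2) ^ n / (Real.exp (n * Γ) * (Real.exp (n * Γ) * W n)))
    (by have := hW n; positivity)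
  obtain ⟨Γ, hΓ0, hΓ⟩ : ∃ Γ : ℕ → ℝ, Γ 0 = 0 ∧
      ∀ n, Γ (n + 1) = Γ n + 3 * (n + 2).factorial * ‖G n (Γ n)‖ :=
    ⟨fun n => Nat.rec 0 (fun n Γ => Γ + 3 * (n + 2).factorial * ‖G n Γ‖) n, rfl, fun _ => rfl⟩
  have hΓm : Monotone Γ := monotone_nat_of_le_succ fun n => by
    rw [hΓ, le_add_iff_nonneg_right]; positivity
  have hΓ1 : ∀ n, 0 ≤ Γ n := fun n => hΓ0 ▸ hΓm (Nat.zero_le n)
  obtain ⟨L, hL⟩ : ∃ L : ℕ → ℝ → B, L = fun n t => ∑ k ∈ range n, (jj m k t : ℂ) • G k (Γ k) :=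
    ⟨_, rfl⟩
  have hLs : ∀ n t, L (n + 1) t = L n t + (jj m n t : ℂ) • G n (Γ n) := by
    intro n t; rw [hL]; exact sum_range_succ _ _
  have hLa : ∀ n s t, L n (s + t) = L n s + L n t := by
    intro n s t
    simp only [hL, ← sum_add_distrib]
    refine sum_congr rfl fun k _ => ?_
    rw [← add_smul, ← Complex.ofReal_add]
    congr 2
    simp only [jj, map_add]; ring
  have hLn : ∀ t n0, Good m t n0 → ∀ n ≥ n0, ‖L n t‖ ≤ n * Γ n := by
    intro t n0 hg n hn
    have : ∀ k, ‖L k t‖ ≤ n0 * Γ k := by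
      intro k
      induction k with
      | zero => simp [hL, hΓ0]
      | succ k ih =>
        rw [hLs, hΓ, mul_add]
        refine (norm_add_le _ _).trans (add_le_add ih ?_)
        rw [norm_smul, Complex.norm_real, Real.norm_eq_abs, ← mul_assoc]
        exact mul_le_mul_of_nonneg_right (hg.1 k) (norm_nonneg _)
    exact (this n).trans (mul_le_mul_of_nonneg_right (by exact_mod_cast hn) (hΓ1 n))
  obtain ⟨u, hu⟩ : ∃ u : ℕ → ℝ → B, u = fun n t => δ (pt n ⌊m n t⌋₊) * exp (L n t) := ⟨_, rfl⟩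
  obtain ⟨E, hE⟩ : ∃ E : ℕ → ℝ, E = fun n : ℕ => Real.exp (n * Γ n) * W n := ⟨_, rfl⟩
  have hE1 : ∀ n, 1 ≤ E n := fun n => by
    rw [hE]
    exact one_le_mul_of_one_le_of_one_le (Real.one_le_exp (by have := hΓ1 n; positivity)) (W_one n)
  have hEm : Monotone E := by
    intro a b hab
    rw [hE]
    have := hΓ1 a
    have := hW a
    refine mul_le_mul (Real.exp_le_exp.2 ?_) (W_mono hab) (by positivity) (by positivity)
    exact mul_le_mul (by exact_mod_cast hab) (hΓm hab) (hΓ1 a) (by positivity)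
  have hstep : ∀ t n0, Good m t n0 → ∀ n ≥ n0, ∀ y : B, ‖y‖ ≤ E n →
      ‖y * u (n + 1) t - y * u n t‖ ≤ (1 / 2) ^ n := by
    intro t n0 hg n hn y hy
    obtain ⟨⟨μ, -, hμ⟩, hj⟩ := hg.2.2 n hn
    obtain ⟨⟨ν, -, hν⟩, -⟩ := hg.2.2 (n + 1) (by omega)
    have h1 : ν ≤ 2 * (n + 2) * μ := by
      rw [jj, hμ, hν, sub_nonneg] at hj
      exact_mod_cast hj
    obtain ⟨ι, hι⟩ := Nat.exists_eq_add_of_le h1
    have h2 : jj m n t = ι := by
      have : (2 * (n + 2) * μ : ℝ) = ν + ι := by exact_mod_cast hι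
      rw [jj, hμ, hν, this]; ring
    have hn' : (n0 : ℝ) ≤ n := by exact_mod_cast hn
    have h3 : ι ≤ n * (3 * (n + 2).factorial) := by
      have h4 := hg.1 n
      rw [h2, Nat.abs_cast] at h4
      have : (ι : ℝ) ≤ n * (3 * (n + 2).factorial) := h4.trans (by gcongr)
      exact_mod_cast this
    have h4 : ν ≤ n * (3 * (n + 2).factorial) := by
      have h4 := hg.2.1 (n + 1)
      rw [hν, Nat.abs_cast] at h4
      have h5 : (0 : ℝ) < (n + 2).factorial := by positivity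
      have : (ν : ℝ) ≤ n * (3 * (n + 2).factorial) :=
        h4.trans (mul_le_mul hn' (by rw [show n + 1 + 1 = n + 2 from rfl]; linarith) (by positivity)
          (by positivity))
      exact_mod_cast this
    have h5 := hG n (Γ n) ν h4 ι h3
    have h6 : y * u (n + 1) t - y * u n t = y * (exp (L n t) *
        (δ (pt (n + 1) 1) ^ ν * (exp (G n (Γ n)) ^ ι - δ (pt (n + 1) 1) ^ ι))) := by
      simp only [hu, hμ, hν, Nat.floor_natCast]
      rw [hLs, h2, ex_add, Complex.ofReal_natCast, ex_nsmul, pt_succ n μ, hι, ← h.pow (n + 1) ν,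
        ← h.pow (n + 1) (ν + ι), pow_add]
      ring
    have h7 : ‖exp (L n t)‖ ≤ Real.exp (n * Γ n) :=
      (ex_norm _).trans (Real.exp_le_exp.2 (hLn t n0 hg n hn))
    rw [h6]
    refine (norm_mul_le _ _).trans ((mul_le_mul hy ((norm_mul_le _ _).trans
      (mul_le_mul h7 h5 (norm_nonneg _) (by positivity))) (norm_nonneg _)
      (by linarith [hE1 n])).trans (le_of_eq ?_))
    have := hW n
    rw [hE]
    field_simp
  have hlim : ∀ t, 0 < t → ∃ a, Tendsto (fun n => u n t) atTop (𝓝 a) := by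
    intro t ht
    obtain ⟨n0, hg⟩ := hm t ht
    have : CauchySeq fun n => u (n + n0) t := by
      refine cauchySeq_of_le_geometric (1 / 2) 1 (by norm_num) fun n => ?_
      have := hstep t n0 hg (n + n0) (by omega) 1 (by simpa using hE1 _)
      rw [dist_comm, dist_eq_norm, show n + 1 + n0 = n + n0 + 1 by ring, one_mul]
      simp only [one_mul] at this
      exact this.trans (pow_le_pow_of_le_one (by norm_num) (by norm_num) (by omega))
    obtain ⟨a, ha⟩ := cauchySeq_tendsto_of_complete this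
    exact ⟨a, (tendsto_add_atTop_iff_nat n0).1 ha⟩
  choose! b0 hb0 using hlim
  have htail : ∀ t, 0 < t → ∀ n0, Good m t n0 → ∀ k ≥ n0, ∀ y : B, ‖y‖ ≤ E k →
      ‖y * b0 t - y * u k t‖ ≤ 2 * (1 / 2) ^ k := by
    intro t ht n0 hg k hk y hy
    have h1 : Tendsto (fun n => y * u (n + k) t) atTop (𝓝 (y * b0 t)) :=
      ((tendsto_add_atTop_iff_nat k).2 (hb0 t ht)).const_mul y
    have := dist_le_of_le_geometric_of_tendsto₀ (1 / 2) ((1 / 2) ^ k) (by norm_num)
      (f := fun n => y * u (n + k) t) (fun n => by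
        rw [dist_comm, dist_eq_norm, show n + 1 + k = n + k + 1 by ring, ← pow_add, add_comm k]
        exact hstep t n0 hg (n + k) (by omega) y (hy.trans (hEm (by omega)))) h1
    rw [dist_comm, dist_eq_norm, zero_add] at this
    exact this.trans (le_of_eq (by ring))
  have hinv : ∀ t n0, Good m t n0 → ∀ k ≥ n0, ∀ p, ‖δ (pt k p) * exp (-L k t)‖ ≤ E k := by
    intro t n0 hg k hk p
    rw [hE, mul_comm]
    refine (norm_mul_le _ _).trans (mul_le_mul ((ex_norm _).trans (Real.exp_le_exp.2 ?_)) ?_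
      (norm_nonneg _) (by positivity))
    · rw [norm_neg]; exact hLn t n0 hg k hk
    · rw [h.norm]; exact om_le (InL_pt _ _)
  have hcan : ∀ t k p, δ (pt k p) * exp (-L k t) * u k t = δ (pt k (p + ⌊m k t⌋₊)) := by
    intro t k p
    rw [hu, pt_add, h.add]
    linear_combination δ (pt k p) * δ (pt k ⌊m k t⌋₊) * ex_neg (L k t)
  have hsmall : ∀ t n0, Good m t n0 → ∀ r : ℚ≥0, 0 < r → ∀ᶠ k in atTop, pt k ⌊m k t⌋₊ < r := by
    intro t n0 hg r hr
    have hr' : (0 : ℝ) < r := by exact_mod_cast hr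
    filter_upwards [eventually_ge_atTop n0, (tendsto_pow_atTop_atTop_of_one_lt
      (one_lt_two (α := ℝ))).eventually_gt_atTop (n0 / r)] with k hk hk2
    obtain ⟨⟨μ, -, hμ⟩, -⟩ := hg.2.2 k hk
    have h1 := hg.2.1 k
    rw [hμ, Nat.abs_cast] at h1
    rw [hμ, Nat.floor_natCast, ← NNRat.cast_lt (K := ℝ), pt, NN]
    push_cast
    rw [div_lt_iff₀ hr'] at hk2
    have h2 : (0 : ℝ) < (k + 1).factorial := by positivity
    rw [div_lt_iff₀ (by positivity)]
    nlinarith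
  have hhalf : Tendsto (fun k : ℕ => 2 * (1 / 2 : ℝ) ^ k) atTop (𝓝 0) := by
    simpa using (tendsto_pow_atTop_nhds_zero_of_lt_one (r := (1 / 2 : ℝ)) (by norm_num)
      (by norm_num)).const_mul 2
  have hmul : ∀ s t, 0 < s → 0 < t → b0 (s + t) = b0 s * b0 t := by
    intro s t hs ht
    obtain ⟨n1, h1⟩ := hm s hs
    obtain ⟨n2, h2⟩ := hm t ht
    refine tendsto_nhds_unique (hb0 _ (add_pos hs ht)) (((hb0 s hs).mul (hb0 t ht)).congr' ?_)
    filter_upwards [eventually_ge_atTop n1, eventually_ge_atTop n2] with n a1 a2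
    obtain ⟨⟨μ, -, hμ⟩, -⟩ := h1.2.2 n a1
    obtain ⟨⟨ν, -, hν⟩, -⟩ := h2.2.2 n a2
    simp only [hu, map_add, hμ, hν, ← Nat.cast_add, Nat.floor_natCast, hLa, ex_add, pt_add, h.add]
    ring
  refine ⟨fun t => if 0 < t then b0 t else 0, fun t => ?_, fun s t hs ht => ?_, fun t ht => ?_, ?_⟩
  · beta_reduce
    split_ifs with ht
    · obtain ⟨n0, hg⟩ := hm t ht
      refine tendsto_nhds_unique (((c 0).continuous.tendsto _).comp (hb0 t ht))
        (tendsto_const_nhds.congr' ?_)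
      filter_upwards [eventually_ge_atTop n0] with n hn
      obtain ⟨⟨μ, h1, hμ⟩, -⟩ := hg.2.2 n hn
      simp only [Function.comp_apply, hu, hμ, Nat.floor_natCast, h.mul0, h.c0 n h1, zero_mul]
    · simp
  · simp only [hs, ht, add_pos hs ht, if_true, hmul s t hs ht]
  · simp only [ht, if_true]
    intro h0
    obtain ⟨n0, hg⟩ := hm t ht
    obtain ⟨k, ⟨a1, a2⟩, a3⟩ := (((eventually_ge_atTop n0).and (hsmall t n0 hg 1 one_pos)).and
      (hhalf.eventually_lt_const one_pos)).exists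
    have := htail t ht n0 hg k a1 _ (hinv t n0 hg k a1 0)
    rw [h0, mul_zero, zero_sub, norm_neg, hcan, zero_add, h.norm] at this
    linarith [om_one a2.le]
  · simp only [one_pos, if_true]
    rw [← hmul 1 1 one_pos one_pos, Metric.mem_closure_iff]
    intro ε hε
    obtain ⟨n1, h1⟩ := hm 1 one_pos
    obtain ⟨n2, h2⟩ := hm (1 + 1) (by norm_num)
    obtain ⟨i, a1, a2⟩ := ((eventually_ge_atTop n1).and
      (hhalf.eventually_lt_const (half_pos hε))).exists
    obtain ⟨⟨μ, hμ1, hμ⟩, -⟩ := h1.2.2 i a1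
    have hr : 0 < pt i μ := by
      have := NN_pos i
      rw [pt]; positivity
    have hh2 := hhalf.mul_const ‖exp (L i 1)‖
    rw [zero_mul] at hh2
    obtain ⟨k, ⟨⟨b1, b2⟩, b3⟩, b4⟩ := ((((eventually_ge_atTop n2).and (eventually_ge_atTop i)).and
      (hsmall _ n2 h2 _ hr)).and (hh2.eventually_lt_const (half_pos hε))).exists
    obtain ⟨P, hP⟩ := ((InL_pt i μ).mono b2).exists_pt
    have hlt : ⌊m k (1 + 1)⌋₊ < P := by
      by_contra h3
      obtain ⟨d, hd⟩ := Nat.exists_eq_add_of_le (not_lt.1 h3)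
      rw [hd, pt_add, ← hP] at b3
      exact absurd b3 (not_lt.2 le_self_add)
    obtain ⟨p, hp⟩ := Nat.exists_eq_add_of_lt hlt
    refine ⟨_, ⟨δ (pt k (p + 1)) * exp (-L k (1 + 1)) * exp (L i 1), ?_, rfl⟩, ?_⟩
    · rw [h.mul0, h.mul0, h.c0 k (by omega), zero_mul, zero_mul]
    · have c1 := htail 1 one_pos n1 h1 i a1 1 (by simpa using hE1 _)
      have c2 := htail (1 + 1) (by norm_num) n2 h2 k b1 _ (hinv _ n2 h2 k b1 (p + 1))
      rw [hcan, show p + 1 + ⌊m k (1 + 1)⌋₊ = P by omega, ← hP] at c2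
      have c3 := (norm_mul_le _ _).trans (mul_le_mul_of_nonneg_right c2 (norm_nonneg (exp (L i 1))))
      simp only [one_mul, hu, hμ, Nat.floor_natCast] at c1
      rw [dist_eq_norm]
      refine lt_of_le_of_lt (le_of_eq ?_) ((norm_sub_le _ _).trans_lt
        ((add_lt_add (c1.trans_lt a2) (c3.trans_lt b4)).trans_eq (add_halves ε)))
      congr 1
      ring

end Pool.Agent.H.MP_3d411c_an
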