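import Mathlib
import Pool.Agent.H.MP_3d411c_an.F

set_option autoImplicit false

namespace Pool.Agent.H.MP_3d411c_an

theorem main : ∃ (R : Type) (_ : NonUnitalNormedCommRing R) (_ : NormedSpace ℂ R)
    (_ : IsScalarTower ℂ R R) (_ : SMulCommClass ℂ R R) (_ : CompleteSpace R),
    (∀ x : R, quasispectrum ℂ x ⊆ {0}) ∧ ¬ FiniteDimensional ℂ R ∧
    (∃ a : ℝ → R, (∀ s t : ℝ, 0 < s → 0 < t → a (s + t) = a s * a t) ∧ (∀ t, 0 < t → a t ≠ 0) ∧
      a 1 ∈ closure (Set.range fun y => a 1 * a 1 * y)) ∧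
    ∀ b : ℝ → R, (∀ s t : ℝ, 0 < s → 0 < t → b (s + t) = b s * b t) →
      ContinuousOn b (Set.Ioi 0) → ∀ t, 0 < t → b t = 0 := by
  obtain ⟨B, _, _, _, δ, c, h⟩ := exists_pkg
  obtain ⟨a, h0, h1, h2, h3⟩ := h.exists_real
  let _ : NormedSpace ℂ h.R := { norm_smul_le := fun z x => norm_smul_le z x.1 }
  refine ⟨h.R, inferInstance, inferInstance, inferInstance, inferInstance,
    h.R_closed.completeSpace_coe, h.quasispec, fun hf => ?_,
    ⟨fun t => ⟨a t, h0 t⟩, fun s t hs ht => Subtype.ext (h1 s t hs ht),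
      fun t ht e => h2 t ht (congrArg Subtype.val e), ?_⟩, fun b hb hc t ht => ?_⟩
  · have hq : ∀ n : ℕ, (1 / ((n : ℚ≥0) + 1)) ≤ 1 := fun n => by
      rw [div_le_one (by positivity)]; exact le_add_self
    have hm : ∀ n : ℕ, δ (1 / ((n : ℚ≥0) + 1)) ∈ h.R := fun n => by
      change c 0 _ = 0
      rw [h.cd 0 zero_le_one, if_neg (by positivity)]
    have hli : LinearIndependent ℂ fun n : ℕ => δ (1 / ((n : ℚ≥0) + 1)) := by
      rw [linearIndependent_iff']
      intro s g hg i hi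
      have := congrArg (c (1 / ((i : ℚ≥0) + 1))) hg
      rw [map_sum, map_zero, Finset.sum_eq_single i] at this
      · rwa [map_smul, h.cd _ (hq i), if_pos rfl, smul_eq_mul, mul_one] at this
      · intro j _ hj
        rw [map_smul, h.cd _ (hq i), if_neg, smul_zero]
        intro e
        apply hj
        simpa using e
      · exact fun h => absurd hi h
    have hli' : LinearIndependent ℂ fun n : ℕ => (⟨_, hm n⟩ : h.R) :=
      LinearIndependent.of_comp h.R.toSubmodule.subtype hli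
    exact not_finite_iff_infinite.2 (inferInstance : Infinite ℕ) hli'.finite
  · rw [Metric.mem_closure_iff] at h3 ⊢
    intro ε hε
    obtain ⟨_, ⟨y, hy, rfl⟩, hd⟩ := h3 ε hε
    exact ⟨_, ⟨⟨y, hy⟩, rfl⟩, hd⟩
  · by_contra hne
    exact h.no_cont (fun t => b t) (fun t => (b t).2)
      (fun s t hs ht => congrArg Subtype.val (hb s t hs ht)) t ht (fun e => hne (Subtype.ext e))
      (continuous_subtype_val.comp_continuousOn hc)

end Pool.Agent.H.MP_3d411c_an
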